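import Pool.Agent.Helper29.BL.GoalsA
import Pool.Agent.Helper29.BL.GoalsD

/-!
# Project BL (MP_a41896_nt), packet THIN
-/

namespace Pool.Agent.Helper83.BL

open WeierstrassCurve Height Height.AdmissibleAbsValues Polynomial Pool.Agent.Helper29.BL

theorem tor_neg {G : Type} [AddCommGroup G] {P Q : G} (h : Tor (P - Q)) : Tor (Q - P) := by
  obtain ⟨n, hn, h1⟩ := h
  refine ⟨n, hn, ?_⟩
  rw [← neg_sub, smul_neg, h1, neg_zero]

theorem tor_self {G : Type} [AddCommGroup G] (P : G) : Tor (P - P) :=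
  ⟨1, one_pos, by rw [sub_self, smul_zero]⟩

theorem nt_of {F : Type} [Field F] [DecidableEq F] {W₁ W₂ : Affine F} {z : W₁.Point × W₂.Point}
    (h1 : ¬ Tor z.1) (h2 : ¬ Tor z.2) : NT z :=
  ⟨fun n hn h => h1 ⟨n, hn, h⟩, fun n hn h => h2 ⟨n, hn, h⟩⟩

theorem ne_zero_of_not_tor {G : Type} [AddCommGroup G] {P : G} (h : ¬ Tor P) : P ≠ 0 := by
  rintro rfl
  exact h ⟨1, one_pos, smul_zero 1⟩

theorem thin_of : TOR → GRD → XEQ → THIN := by
  intro hTOR hGRD hXEQ K _ _ _ W₁ W₂ _ _ H₁ H₂ c₀ hH₁ hH₂ d hd R2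
  classical
  obtain ⟨ε, hε, T₀, N, hN⟩ := hTOR K W₁ W₂ H₁ H₂ c₀ hH₁ hH₂ d hd
  refine ⟨ε, hε, T₀, 2 * N + R2 * (2 * N + 4) + 1, by omega, fun T hT B hB x hx T' hT' hcard => ?_⟩
  have hN' := hN T hT B hB
  -- remove the points which differ from `x` by torsion
  set T1 := T'.filter (fun z => ¬ Tor (x.1 - z.1) ∧ ¬ Tor (x.2 - z.2)) with hT1
  have hT1B : T1 ⊆ B := (Finset.filter_subset _ _).trans hT'
  have hrem : T' ⊆ T1 ∪ (B.filter (fun z => Tor (x.1 - z.1)) ∪ B.filter (fun z => Tor (x.2 - z.2))) := by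
    intro z hz
    simp only [hT1, Finset.mem_union, Finset.mem_filter]
    by_cases h1 : Tor (x.1 - z.1)
    · exact Or.inr (Or.inl ⟨hT' hz, h1⟩)
    · by_cases h2 : Tor (x.2 - z.2)
      · exact Or.inr (Or.inr ⟨hT' hz, h2⟩)
      · exact Or.inl ⟨hz, h1, h2⟩
  have hc1 := Finset.card_le_card hrem
  have hc2 := Finset.card_union_le T1
    (B.filter (fun z => Tor (x.1 - z.1)) ∪ B.filter (fun z => Tor (x.2 - z.2)))
  have hc3 := Finset.card_union_le (B.filter (fun z => Tor (x.1 - z.1)))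
    (B.filter (fun z => Tor (x.2 - z.2)))
  obtain ⟨hx1, hx2⟩ := hN' x
  have hcT1 : R2 * (2 * N + 4) ≤ T1.card := by omega
  -- the classes with the same `κ(x - z)`
  have hclass : ∀ a ∈ T1, (T1.filter (fun b => kap (x - a) = kap (x - b))).card ≤ 4 := by
    intro a ha
    rw [hT1, Finset.mem_filter] at ha
    obtain ⟨-, ha1, ha2⟩ := ha
    have hsub : T1.filter (fun b => kap (x - a) = kap (x - b)) ⊆
        {x - ((x - a).1, (x - a).2), x - ((x - a).1, -(x - a).2), x - (-(x - a).1, (x - a).2),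
          x - (-(x - a).1, -(x - a).2)} := by
      intro b hb
      rw [Finset.mem_filter, hT1, Finset.mem_filter] at hb
      obtain ⟨⟨-, hb1, hb2⟩, hk⟩ := hb
      have k1 : xc (x - a).1 = xc (x - b).1 := congrArg Prod.fst hk
      have k2 : xc (x - a).2 = xc (x - b).2 := congrArg Prod.snd hk
      have e1 := ((hXEQ K W₁).1 (x - b).1 (x - a).1 (ne_zero_of_not_tor hb1)
        (ne_zero_of_not_tor ha1)).1 k1.symm
      have e2 := ((hXEQ K W₂).1 (x - b).2 (x - a).2 (ne_zero_of_not_tor hb2)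
        (ne_zero_of_not_tor ha2)).1 k2.symm
      have hb' : b = x - ((x - b).1, (x - b).2) := by
        rw [Prod.mk.eta, sub_sub_cancel]
      simp only [Finset.mem_insert, Finset.mem_singleton]
      rcases e1 with e1 | e1 <;> rcases e2 with e2 | e2
      · left
        rw [← e1, ← e2]
        exact hb'
      · right; left
        rw [← e1, ← e2]
        exact hb'
      · right; right; left
        rw [← e1, ← e2]
        exact hb'
      · right; right; right
        rw [← e1, ← e2]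
        exact hb'
    exact (Finset.card_le_card hsub).trans Finset.card_le_four
  obtain ⟨S, hS, hSc, hSr⟩ := hGRD (W₁.Point × W₂.Point)
    (fun a b => Tor (a.1 - b.1) ∨ Tor (a.2 - b.2) ∨ kap (x - a) = kap (x - b))
    (fun a => Or.inl (tor_self _))
    (fun a b h => h.imp tor_neg (Or.imp tor_neg Eq.symm)) T1 (2 * N + 4) R2 (by
      intro a ha
      have hsub : T1.filter (fun b => Tor (a.1 - b.1) ∨ Tor (a.2 - b.2) ∨
          kap (x - a) = kap (x - b)) ⊆
          (B.filter (fun z => Tor (a.1 - z.1)) ∪ B.filter (fun z => Tor (a.2 - z.2))) ∪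
            T1.filter (fun b => kap (x - a) = kap (x - b)) := by
        intro b hb
        rw [Finset.mem_filter] at hb
        obtain ⟨hb1, hb2⟩ := hb
        simp only [Finset.mem_union, Finset.mem_filter]
        rcases hb2 with h | h | h
        · exact Or.inl (Or.inl ⟨hT1B hb1, h⟩)
        · exact Or.inl (Or.inr ⟨hT1B hb1, h⟩)
        · exact Or.inr ⟨hb1, h⟩
      have c1 := Finset.card_le_card hsub
      have c2 := Finset.card_union_le (B.filter (fun z => Tor (a.1 - z.1)) ∪
        B.filter (fun z => Tor (a.2 - z.2))) (T1.filter (fun b => kap (x - a) = kap (x - b)))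
      have c3 := Finset.card_union_le (B.filter (fun z => Tor (a.1 - z.1)))
        (B.filter (fun z => Tor (a.2 - z.2)))
      have c4 := hclass a ha
      obtain ⟨h1, h2⟩ := hN' a
      have c5 : (T1.filter (fun b => Tor (a.1 - b.1) ∨ Tor (a.2 - b.2) ∨
          kap (x - a) = kap (x - b))).card ≤ 2 * N + 4 := by omega
      convert c5) hcT1 (by omega)
  refine ⟨S, hS.trans (Finset.filter_subset _ _), hSc, fun z hz => ?_, fun z hz z' hz' hne => ?_⟩
  · have := hS hz
    rw [hT1, Finset.mem_filter] at this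
    exact nt_of this.2.1 this.2.2
  · have h := hSr z hz z' hz' hne
    simp only [not_or] at h
    exact ⟨nt_of h.1 h.2.1, h.2.2⟩

end Pool.Agent.Helper83.BL
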