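import Pool.Agent.Helper29.BL.GoalsF
import Pool.Agent.Helper83.BL.THIN

/-!
# Project BL (MP_a41896_nt), second round, packet THINg (with TOR)
-/

namespace Pool.Agent.Helper83.BL

open WeierstrassCurve Height Height.AdmissibleAbsValues Polynomial Pool.Agent.Helper29.BL
open scoped Polynomial.Bivariate

open Classical in
theorem torg_of (hV : VF) (hN : NORg) (K : Type) [Field K] [NumberField K] [DecidableEq K]
    (W₁ W₂ : Affine K) (H₁ : W₁.Point → ℝ) (H₂ : W₂.Point → ℝ) (c₀ : ℝ) (e₁ e₂ : ℕ)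
    (hH₁ : GH W₁ H₁ c₀ e₁) (hH₂ : GH W₂ H₂ c₀ e₂) (d : ℝ) (hd : 0 < d) :
    ∃ ε : ℝ, 0 < ε ∧ ∃ (T₀ : ℝ) (N : ℕ), ∀ T : ℝ, T₀ ≤ T →
      ∀ B : Finset (W₁.Point × W₂.Point), BallH H₁ H₂ d ε T B → ∀ y : W₁.Point × W₂.Point,
      (B.filter (fun z => Tor (y.1 - z.1))).card ≤ N ∧
        (B.filter (fun z => Tor (y.2 - z.2))).card ≤ N := by
  obtain ⟨ε, hε, T₁, N, hVF⟩ := hV K W₁ W₂ d hd
  obtain ⟨f₁, t₁⟩ := hN K W₁ H₁ c₀ e₁ hH₁
  obtain ⟨f₂, t₂⟩ := hN K W₂ H₂ c₀ e₂ hH₂
  set F₁ := (f₁ 0).toFinset with hF₁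
  set F₂ := (f₂ 0).toFinset with hF₂
  refine ⟨ε / 2, by positivity, max T₁ (max c₀ (4 * c₀ / ε)), N * F₁.card + N * F₂.card, ?_⟩
  intro T hT B hB y
  have hT1 : T₁ ≤ T := (le_max_left _ _).trans hT
  have hT2 : c₀ ≤ T := (le_max_left _ _).trans ((le_max_right _ _).trans hT)
  have hT3 : 4 * c₀ / ε ≤ T := (le_max_right _ _).trans ((le_max_right _ _).trans hT)
  have hT4 : 2 * c₀ ≤ ε / 2 * T := by
    have := (div_le_iff₀ hε).1 hT3
    linarith
  -- the hypotheses of VF
  have g1 : ∀ z ∈ B, Aff z ∧ hh z ≤ 5 * T ∧ d * T ≤ gg z := by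
    intro z hz
    have a1 := abs_le.1 (hH₁.near z.1)
    have a2 := abs_le.1 (hH₂.near z.2)
    have a3 := hB.size z hz
    refine ⟨⟨fun h => ?_, fun h => ?_⟩, ?_, hB.bad z hz⟩
    · exact (hB.nt z hz).1 1 one_pos (by rw [h]; exact smul_zero _)
    · exact (hB.nt z hz).2 1 one_pos (by rw [h]; exact smul_zero _)
    · have : hh z = hx z.1 + hx z.2 := rfl
      linarith [a1.1, a2.1]
  have g2 : ∀ z ∈ B, ∀ z' ∈ B, hh (z - z') ≤ ε * T := by
    intro z hz z' hz'
    have a1 := abs_le.1 (hH₁.near (z.1 - z'.1))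
    have a2 := abs_le.1 (hH₂.near (z.2 - z'.2))
    have a3 := hB.diam z hz z' hz'
    have : hh (z - z') = hx (z.1 - z'.1) + hx (z.2 - z'.2) := rfl
    linarith [a1.1, a2.1]
  constructor
  · refine (Finset.card_le_mul_card_image_of_maps_to (f := fun z => y.1 - z.1) (t := F₁)
      (fun z hz => ?_) N (fun b _ => ?_)).trans (Nat.le_add_right _ _)
    · rw [hF₁, Set.Finite.mem_toFinset]
      exact ((t₁ _).2 (Finset.mem_filter.1 hz).2).le
    · refine hVF T hT1 _ (fun z hz => ?_) (fun z hz z' hz' => ?_) (Or.inl fun z hz z' hz' => ?_)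
      · exact g1 z (Finset.mem_filter.1 (Finset.mem_filter.1 hz).1).1
      · exact g2 z (Finset.mem_filter.1 (Finset.mem_filter.1 hz).1).1 z'
          (Finset.mem_filter.1 (Finset.mem_filter.1 hz').1).1
      · exact sub_right_injective (((Finset.mem_filter.1 hz).2).trans
          ((Finset.mem_filter.1 hz').2).symm)
  · refine (Finset.card_le_mul_card_image_of_maps_to (f := fun z => y.2 - z.2) (t := F₂)
      (fun z hz => ?_) N (fun b _ => ?_)).trans (Nat.le_add_left _ _)
    · rw [hF₂, Set.Finite.mem_toFinset]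
      exact ((t₂ _).2 (Finset.mem_filter.1 hz).2).le
    · refine hVF T hT1 _ (fun z hz => ?_) (fun z hz z' hz' => ?_) (Or.inr fun z hz z' hz' => ?_)
      · exact g1 z (Finset.mem_filter.1 (Finset.mem_filter.1 hz).1).1
      · exact g2 z (Finset.mem_filter.1 (Finset.mem_filter.1 hz).1).1 z'
          (Finset.mem_filter.1 (Finset.mem_filter.1 hz').1).1
      · exact sub_right_injective (((Finset.mem_filter.1 hz).2).trans
          ((Finset.mem_filter.1 hz').2).symm)

theorem thing_of : VF → NORg → GRD → XEQ → THINg := by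
  intro hV hN hGRD hXEQ K _ _ _ W₁ W₂ H₁ H₂ c₀ e₁ e₂ hH₁ hH₂ d hd R2
  classical
  obtain ⟨ε, hε, T₀, N, hNt⟩ := torg_of hV hN K W₁ W₂ H₁ H₂ c₀ e₁ e₂ hH₁ hH₂ d hd
  refine ⟨ε, hε, T₀, 2 * N + R2 * (2 * N + 4) + 1, by omega, fun T hT B hB x hx T' hT' hcard => ?_⟩
  have hN' := hNt T hT B hB
  -- remove the points which differ from `x` by torsion
  set T1 := T'.filter (fun z => ¬ Tor (x.1 - z.1) ∧ ¬ Tor (x.2 - z.2)) with hT1
  have hT1B : T1 ⊆ B := (Finset.filter_subset _ _).trans hT'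
  have hrem : T' ⊆ T1 ∪ (B.filter (fun z => Tor (x.1 - z.1)) ∪ B.filter (fun z => Tor (x.2 - z.2))) := by
    intro z hz
    simp only [hT1, Finset.mem_union, Finset.mem_filter]
    by_cases h1 : Tor (x.1 - z.1)
    · exact Or.inr (Or.inl ⟨hT' hz, h1⟩)
    · by_cases h2 : Tor (x.2 - z.2)
      · exact Or.inr (Or.inr ⟨hT' hz, h2⟩)
      · exact Or.inl ⟨hz, h1, h2⟩
  have hc1 := Finset.card_le_card hrem
  have hc2 := Finset.card_union_le T1
    (B.filter (fun z => Tor (x.1 - z.1)) ∪ B.filter (fun z => Tor (x.2 - z.2)))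
  have hc3 := Finset.card_union_le (B.filter (fun z => Tor (x.1 - z.1)))
    (B.filter (fun z => Tor (x.2 - z.2)))
  obtain ⟨hx1, hx2⟩ := hN' x
  have hcT1 : R2 * (2 * N + 4) ≤ T1.card := by omega
  -- the classes with the same `κ(x - z)`
  have hclass : ∀ a ∈ T1, (T1.filter (fun b => kap (x - a) = kap (x - b))).card ≤ 4 := by
    intro a ha
    rw [hT1, Finset.mem_filter] at ha
    obtain ⟨-, ha1, ha2⟩ := ha
    have hsub : T1.filter (fun b => kap (x - a) = kap (x - b)) ⊆
        {x - ((x - a).1, (x - a).2), x - ((x - a).1, -(x - a).2), x - (-(x - a).1, (x - a).2),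
          x - (-(x - a).1, -(x - a).2)} := by
      intro b hb
      rw [Finset.mem_filter, hT1, Finset.mem_filter] at hb
      obtain ⟨⟨-, hb1, hb2⟩, hk⟩ := hb
      have k1 : xc (x - a).1 = xc (x - b).1 := congrArg Prod.fst hk
      have k2 : xc (x - a).2 = xc (x - b).2 := congrArg Prod.snd hk
      have e1 := ((hXEQ K W₁).1 (x - b).1 (x - a).1 (ne_zero_of_not_tor hb1)
        (ne_zero_of_not_tor ha1)).1 k1.symm
      have e2 := ((hXEQ K W₂).1 (x - b).2 (x - a).2 (ne_zero_of_not_tor hb2)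
        (ne_zero_of_not_tor ha2)).1 k2.symm
      have hb' : b = x - ((x - b).1, (x - b).2) := by
        rw [Prod.mk.eta, sub_sub_cancel]
      simp only [Finset.mem_insert, Finset.mem_singleton]
      rcases e1 with e1 | e1 <;> rcases e2 with e2 | e2
      · left
        rw [← e1, ← e2]
        exact hb'
      · right; left
        rw [← e1, ← e2]
        exact hb'
      · right; right; left
        rw [← e1, ← e2]
        exact hb'
      · right; right; right
        rw [← e1, ← e2]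
        exact hb'
    exact (Finset.card_le_card hsub).trans Finset.card_le_four
  obtain ⟨S, hS, hSc, hSr⟩ := hGRD (W₁.Point × W₂.Point)
    (fun a b => Tor (a.1 - b.1) ∨ Tor (a.2 - b.2) ∨ kap (x - a) = kap (x - b))
    (fun a => Or.inl (tor_self _))
    (fun a b h => h.imp tor_neg (Or.imp tor_neg Eq.symm)) T1 (2 * N + 4) R2 (by
      intro a ha
      have hsub : T1.filter (fun b => Tor (a.1 - b.1) ∨ Tor (a.2 - b.2) ∨
          kap (x - a) = kap (x - b)) ⊆
          (B.filter (fun z => Tor (a.1 - z.1)) ∪ B.filter (fun z => Tor (a.2 - z.2))) ∪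
            T1.filter (fun b => kap (x - a) = kap (x - b)) := by
        intro b hb
        rw [Finset.mem_filter] at hb
        obtain ⟨hb1, hb2⟩ := hb
        simp only [Finset.mem_union, Finset.mem_filter]
        rcases hb2 with h | h | h
        · exact Or.inl (Or.inl ⟨hT1B hb1, h⟩)
        · exact Or.inl (Or.inr ⟨hT1B hb1, h⟩)
        · exact Or.inr ⟨hb1, h⟩
      have c1 := Finset.card_le_card hsub
      have c2 := Finset.card_union_le (B.filter (fun z => Tor (a.1 - z.1)) ∪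
        B.filter (fun z => Tor (a.2 - z.2))) (T1.filter (fun b => kap (x - a) = kap (x - b)))
      have c3 := Finset.card_union_le (B.filter (fun z => Tor (a.1 - z.1)))
        (B.filter (fun z => Tor (a.2 - z.2)))
      have c4 := hclass a ha
      obtain ⟨h1, h2⟩ := hN' a
      have c5 : (T1.filter (fun b => Tor (a.1 - b.1) ∨ Tor (a.2 - b.2) ∨
          kap (x - a) = kap (x - b))).card ≤ 2 * N + 4 := by omega
      convert c5) hcT1 (by omega)
  refine ⟨S, hS.trans (Finset.filter_subset _ _), hSc, fun z hz => ?_, fun z hz z' hz' hne => ?_⟩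
  · have := hS hz
    rw [hT1, Finset.mem_filter] at this
    exact nt_of this.2.1 this.2.2
  · have h := hSr z hz z' hz' hne
    simp only [not_or] at h
    exact ⟨nt_of h.1 h.2.1, h.2.2⟩

end Pool.Agent.Helper83.BL
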